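import Pool.Agent.ODR61.Game

/-!
# Strategies of Builder for the paw and for the cycle of length four
-/

set_option autoImplicit false
set_option maxRecDepth 100000

namespace Pool.Agent.ODR61

/-- The edges of the paw: a triangle `0, 1, 2` and the edge `23`. -/
def pawE : List (ℕ × ℕ) := [(0, 1), (1, 2), (2, 0), (2, 3)]

/-- The edges of the cycle of length four. -/
def cycE : List (ℕ × ℕ) := [(0, 1), (1, 2), (2, 3), (3, 0)]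

/-- A strategy for the paw. -/
def pawS : Strat :=
  (.n 0 1 (.n 0 2 (.n 0 3 (.n 4 5 (.n 1 2 (.l false [1,2,0,3]) (.n 0 4 (.n 1 3 (.l false
    [1,3,0,2]) (.n 1 4 (.l false [1,4,0,2]) (.n 2 3 (.l false [2,3,0,1]) (.l true [2,3,1,4])))) (.n
    1 5 (.n 2 5 (.n 1 4 (.l false [1,4,5,2]) (.n 2 4 (.l false [2,4,5,1]) (.l true [1,2,4,0]))) (.n
    1 3 (.l false [1,3,0,2]) (.n 2 3 (.l false [2,3,0,1]) (.l true [1,3,2,5])))) (.n 1 3 (.l false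
    [1,3,0,2]) (.n 2 3 (.l false [2,3,0,1]) (.l true [2,3,1,5])))))) (.n 1 6 (.n 2 6 (.n 4 6 (.n 1
    2 (.l false [1,2,0,3]) (.n 1 4 (.l false [1,4,6,2]) (.n 2 4 (.l false [2,4,6,1]) (.l true
    [1,2,4,5])))) (.n 1 5 (.n 0 5 (.l false [0,5,1,6]) (.n 5 6 (.l false [5,6,1,0]) (.l true
    [4,6,5,0]))) (.n 2 5 (.n 5 6 (.l false [5,6,2,0]) (.l true [4,6,5,1])) (.n 1 2 (.l false
    [1,2,0,3]) (.l true [1,2,5,4]))))) (.n 1 2 (.l false [1,2,0,3]) (.n 1 3 (.l false [1,3,0,2])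
    (.n 2 3 (.l false [2,3,0,1]) (.l true [1,3,2,6]))))) (.n 1 2 (.l false [1,2,0,3]) (.n 1 3 (.l
    false [1,3,0,2]) (.n 2 3 (.l false [2,3,0,1]) (.l true [2,3,1,6])))))) (.n 1 2 (.n 0 4 (.l
    false [1,2,0,4]) (.n 1 3 (.l false [0,2,1,3]) (.n 4 5 (.n 4 6 (.n 3 5 (.n 3 4 (.l false
    [5,3,4,6]) (.l true [0,4,3,1])) (.n 1 5 (.l false [0,2,1,5]) (.l true [1,5,3,0]))) (.n 2 4 (.l
    false [0,1,2,4]) (.n 2 6 (.l false [0,1,2,6]) (.l true [2,6,4,0])))) (.n 2 4 (.l false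
    [0,1,2,4]) (.n 2 5 (.l false [0,1,2,5]) (.l true [2,5,4,0])))))) (.n 1 4 (.n 3 4 (.n 4 5 (.n 1
    5 (.l false [1,5,4,3]) (.n 2 4 (.n 2 5 (.l false [2,5,4,1]) (.n 3 5 (.l false [3,5,4,1]) (.l
    true [1,2,5,3]))) (.n 0 5 (.n 2 5 (.l false [2,5,0,1]) (.l true [1,5,2,4])) (.n 3 5 (.l false
    [3,5,4,1]) (.l true [0,3,5,1]))))) (.n 3 6 (.n 0 5 (.n 1 5 (.l false [1,5,0,2]) (.n 2 5 (.l
    false [2,5,0,1]) (.l true [1,2,5,4]))) (.n 5 6 (.n 3 5 (.l false [6,5,3,4]) (.l true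
    [0,3,5,4])) (.n 4 6 (.l false [3,6,4,1]) (.l true [4,6,5,0])))) (.n 0 6 (.n 1 6 (.l false
    [1,6,0,2]) (.n 2 6 (.l false [2,6,0,1]) (.l true [1,2,6,3]))) (.n 1 3 (.l false [4,3,1,0]) (.l
    true [0,6,3,1]))))) (.n 0 4 (.l false [1,4,0,2]) (.n 5 6 (.n 3 5 (.n 3 6 (.n 4 5 (.l false
    [3,6,5,4]) (.l true [0,3,4,5])) (.l true [0,4,3,6])) (.l true [0,4,3,5])) (.n 2 5 (.n 2 3 (.n 3
    5 (.l false [3,5,2,0]) (.l true [0,4,3,5])) (.l true [0,4,3,2])) (.n 1 5 (.n 4 5 (.l false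
    [4,5,1,0]) (.l true [0,3,4,5])) (.l true [2,1,5,6])))))) (.n 3 5 (.n 3 6 (.n 3 4 (.n 4 5 (.l
    false [4,5,3,6]) (.n 4 6 (.l false [4,6,3,5]) (.n 5 6 (.l false [5,6,3,4]) (.l true
    [5,6,4,1])))) (.n 0 4 (.n 2 4 (.l false [2,4,0,1]) (.l true [1,2,4,3])) (.l true [3,0,4,1])))
    (.n 2 4 (.n 0 6 (.n 1 6 (.l false [1,6,0,2]) (.n 2 6 (.l false [2,6,0,1]) (.l true [2,6,1,4])))
    (.n 2 6 (.n 4 6 (.l false [4,6,2,0]) (.l true [0,3,6,4])) (.l true [0,3,6,2]))) (.n 1 5 (.n 3 4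
    (.n 4 5 (.l false [3,4,5,1]) (.l true [1,2,4,5])) (.l true [1,2,4,3])) (.l true [2,4,1,5]))))
    (.n 0 5 (.n 1 5 (.l false [1,5,0,2]) (.n 2 5 (.l false [2,5,0,1]) (.l true [2,5,1,4]))) (.n 3 4
    (.n 4 6 (.n 3 6 (.n 4 5 (.l false [3,6,4,5]) (.l true [0,3,5,4])) (.l true [0,5,3,6])) (.n 2 3
    (.n 2 4 (.l false [3,4,2,0]) (.l true [1,2,4,6])) (.l true [0,5,3,2]))) (.l true
    [0,5,3,4]))))))) (.n 0 3 (.n 1 3 (.n 0 4 (.l false [1,3,0,4]) (.n 1 2 (.l false [0,3,1,2]) (.n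
    4 5 (.n 4 6 (.n 2 5 (.n 2 4 (.l false [5,2,4,6]) (.l true [0,4,2,1])) (.n 1 5 (.l false
    [0,3,1,5]) (.l true [1,5,2,0]))) (.n 3 4 (.l false [0,1,3,4]) (.n 3 6 (.l false [0,1,3,6]) (.l
    true [3,6,4,0])))) (.n 3 4 (.l false [0,1,3,4]) (.n 3 5 (.l false [0,1,3,5]) (.l true
    [3,5,4,0])))))) (.n 1 4 (.n 2 4 (.n 4 5 (.n 1 5 (.l false [1,5,4,2]) (.n 3 4 (.n 2 5 (.l false
    [2,5,4,1]) (.n 3 5 (.l false [3,5,4,1]) (.l true [1,3,5,2]))) (.n 0 5 (.n 3 5 (.l false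
    [3,5,0,1]) (.l true [1,5,3,4])) (.n 2 5 (.l false [2,5,4,1]) (.l true [0,2,5,1]))))) (.n 2 6
    (.n 0 5 (.n 1 5 (.l false [1,5,0,3]) (.n 3 5 (.l false [3,5,0,1]) (.l true [1,3,5,4]))) (.n 5 6
    (.n 2 5 (.l false [6,5,2,4]) (.l true [0,2,5,4])) (.n 4 6 (.l false [2,6,4,1]) (.l true
    [4,6,5,0])))) (.n 0 6 (.n 1 6 (.l false [1,6,0,3]) (.n 3 6 (.l false [3,6,0,1]) (.l true
    [1,3,6,2]))) (.n 1 2 (.l false [4,2,1,0]) (.l true [0,6,2,1]))))) (.n 0 4 (.l false [1,4,0,3])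
    (.n 5 6 (.n 2 5 (.n 2 6 (.n 4 5 (.l false [2,6,5,4]) (.l true [0,2,4,5])) (.l true [0,4,2,6]))
    (.l true [0,4,2,5])) (.n 3 5 (.n 2 3 (.n 2 5 (.l false [2,5,3,0]) (.l true [0,4,2,5])) (.l true
    [0,4,2,3])) (.n 1 5 (.n 4 5 (.l false [4,5,1,0]) (.l true [0,2,4,5])) (.l true [3,1,5,6]))))))
    (.n 2 5 (.n 2 6 (.n 2 4 (.n 4 5 (.l false [4,5,2,6]) (.n 4 6 (.l false [4,6,2,5]) (.n 5 6 (.l
    false [5,6,2,4]) (.l true [5,6,4,1])))) (.n 0 4 (.n 3 4 (.l false [3,4,0,1]) (.l true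
    [1,3,4,2])) (.l true [2,0,4,1]))) (.n 3 4 (.n 0 6 (.n 1 6 (.l false [1,6,0,3]) (.n 3 6 (.l
    false [3,6,0,1]) (.l true [3,6,1,4]))) (.n 3 6 (.n 4 6 (.l false [4,6,3,0]) (.l true
    [0,2,6,4])) (.l true [0,2,6,3]))) (.n 1 5 (.n 2 4 (.n 4 5 (.l false [2,4,5,1]) (.l true
    [1,3,4,5])) (.l true [1,3,4,2])) (.l true [3,4,1,5])))) (.n 0 5 (.n 1 5 (.l false [1,5,0,3])
    (.n 3 5 (.l false [3,5,0,1]) (.l true [3,5,1,4]))) (.n 2 4 (.n 4 6 (.n 2 6 (.n 4 5 (.l false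
    [2,6,4,5]) (.l true [0,2,5,4])) (.l true [0,5,2,6])) (.n 2 3 (.n 3 4 (.l false [2,4,3,0]) (.l
    true [1,3,4,6])) (.l true [0,5,2,3]))) (.l true [0,5,2,4])))))) (.n 1 4 (.n 0 4 (.n 1 2 (.l
    false [0,4,1,2]) (.n 3 5 (.n 3 6 (.n 2 5 (.n 2 3 (.l false [5,2,3,6]) (.l true [0,3,2,1])) (.n
    1 5 (.l false [0,4,1,5]) (.l true [1,5,2,0]))) (.n 3 4 (.l false [0,1,4,3]) (.n 4 6 (.l false
    [0,1,4,6]) (.l true [4,6,3,0])))) (.n 3 4 (.l false [0,1,4,3]) (.n 4 5 (.l false [0,1,4,5]) (.l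
    true [4,5,3,0]))))) (.n 2 3 (.n 2 4 (.n 3 4 (.l false [2,3,4,1]) (.l true [3,4,0,2])) (.l true
    [2,4,0,3])) (.l true [2,3,0,4]))) (.n 2 4 (.n 1 5 (.n 4 6 (.n 1 3 (.n 0 5 (.l false [0,5,1,3])
    (.n 3 5 (.l false [3,5,1,0]) (.l true [3,5,0,2]))) (.n 2 3 (.n 3 4 (.l false [2,3,4,6]) (.l
    true [1,4,3,0])) (.l true [0,2,3,1]))) (.n 4 5 (.n 0 5 (.l false [1,0,5,4]) (.n 2 5 (.l false
    [4,2,5,1]) (.l true [2,5,0,3]))) (.n 1 6 (.n 5 6 (.l false [5,6,1,0]) (.l true [5,6,4,1])) (.l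
    true [1,6,4,5])))) (.n 0 6 (.n 2 5 (.n 4 5 (.n 2 3 (.l false [4,5,2,3]) (.n 3 4 (.l false
    [2,5,4,3]) (.l true [0,2,3,4]))) (.n 1 6 (.n 4 6 (.l false [0,1,6,4]) (.l true [1,5,4,6])) (.l
    true [4,5,1,6]))) (.n 5 6 (.n 4 6 (.n 4 5 (.l false [4,5,6,0]) (.l true [1,4,5,2])) (.n 1 6 (.l
    false [0,1,6,5]) (.l true [4,6,1,5]))) (.n 1 6 (.n 2 6 (.l false [0,1,6,2]) (.l true
    [2,6,5,1])) (.l true [1,6,5,2])))) (.n 2 3 (.n 2 6 (.n 3 6 (.l false [3,6,2,4]) (.l true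
    [3,6,0,2])) (.l true [2,6,0,3])) (.l true [2,3,0,6])))) (.n 0 5 (.n 1 3 (.n 1 2 (.n 2 3 (.l
    false [2,3,1,0]) (.l true [0,3,2,4])) (.l true [4,1,2,0])) (.n 4 5 (.n 3 5 (.n 3 4 (.l false
    [3,4,5,0]) (.l true [1,3,4,2])) (.n 1 5 (.l false [0,1,5,4]) (.l true [1,5,3,0]))) (.n 1 5 (.n
    2 5 (.l false [0,1,5,2]) (.l true [2,5,4,1])) (.l true [1,5,4,2])))) (.n 2 3 (.n 3 4 (.n 2 5
    (.n 3 5 (.l false [2,5,3,4]) (.l true [3,5,0,2])) (.l true [2,5,0,3])) (.n 1 2 (.n 1 3 (.l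
    false [2,3,1,0]) (.l true [1,3,4,2])) (.l true [1,2,4,3]))) (.l true [2,3,0,5]))))))) (.n 0 2
    (.n 0 3 (.n 1 4 (.n 2 4 (.n 0 5 (.n 2 3 (.l false [2,3,0,5]) (.n 3 4 (.n 1 2 (.l false
    [1,2,4,3]) (.n 1 3 (.l false [1,3,4,2]) (.l true [2,3,1,0]))) (.n 2 5 (.l false [2,5,0,3]) (.n
    3 5 (.l false [3,5,0,2]) (.l true [2,5,3,4]))))) (.n 1 3 (.n 4 5 (.n 1 5 (.l false [1,5,4,2])
    (.n 2 5 (.l false [2,5,4,1]) (.l true [0,1,5,2]))) (.n 3 5 (.n 1 5 (.l false [1,5,3,0]) (.l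
    true [0,1,5,4])) (.n 3 4 (.l false [1,3,4,2]) (.l true [3,4,5,0])))) (.n 1 2 (.l false
    [4,1,2,0]) (.n 2 3 (.l false [0,3,2,4]) (.l true [2,3,1,0]))))) (.n 1 5 (.n 0 6 (.n 2 3 (.l
    false [2,3,0,6]) (.n 2 6 (.l false [2,6,0,3]) (.n 3 6 (.l false [3,6,0,2]) (.l true
    [3,6,2,4])))) (.n 2 5 (.n 5 6 (.n 1 6 (.l false [1,6,5,2]) (.n 2 6 (.l false [2,6,5,1]) (.l
    true [0,1,6,2]))) (.n 4 6 (.n 1 6 (.l false [4,6,1,5]) (.l true [0,1,6,5])) (.n 4 5 (.l false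
    [1,4,5,2]) (.l true [4,5,6,0])))) (.n 4 5 (.n 1 6 (.l false [4,5,1,6]) (.n 4 6 (.l false
    [1,5,4,6]) (.l true [0,1,6,4]))) (.n 2 3 (.n 3 4 (.l false [0,2,3,4]) (.l true [2,5,4,3])) (.l
    true [4,5,2,3]))))) (.n 4 6 (.n 4 5 (.n 1 6 (.l false [1,6,4,5]) (.n 5 6 (.l false [5,6,4,1])
    (.l true [5,6,1,0]))) (.n 0 5 (.n 2 5 (.l false [2,5,0,3]) (.l true [4,2,5,1])) (.l true
    [1,0,5,4]))) (.n 1 3 (.n 2 3 (.l false [0,2,3,1]) (.n 3 4 (.l false [1,4,3,0]) (.l true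
    [2,3,4,6]))) (.n 0 5 (.n 3 5 (.l false [3,5,0,2]) (.l true [3,5,1,0])) (.l true [0,5,1,3]))))))
    (.n 0 4 (.n 2 3 (.l false [2,3,0,4]) (.n 2 4 (.l false [2,4,0,3]) (.n 3 4 (.l false [3,4,0,2])
    (.l true [2,3,4,1])))) (.n 1 2 (.n 3 5 (.n 3 4 (.n 4 5 (.l false [4,5,3,0]) (.l true
    [0,1,4,5])) (.l true [0,1,4,3])) (.n 3 6 (.n 3 4 (.n 4 6 (.l false [4,6,3,0]) (.l true
    [0,1,4,6])) (.l true [0,1,4,3])) (.n 2 5 (.n 1 5 (.l false [1,5,2,0]) (.l true [0,4,1,5])) (.n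
    2 3 (.l false [0,3,2,1]) (.l true [5,2,3,6]))))) (.l true [0,4,1,2])))) (.n 1 3 (.n 1 4 (.n 2 5
    (.n 0 5 (.n 2 4 (.l false [0,5,2,4]) (.n 4 6 (.n 2 3 (.l false [0,5,2,3]) (.n 3 4 (.l false
    [1,3,4,6]) (.l true [2,4,3,0]))) (.n 2 6 (.l false [0,5,2,6]) (.n 4 5 (.l false [0,2,5,4]) (.l
    true [2,6,4,5]))))) (.n 1 5 (.n 3 5 (.l false [3,5,1,4]) (.l true [3,5,0,1])) (.l true
    [1,5,0,3]))) (.n 2 6 (.n 3 4 (.n 1 5 (.l false [3,4,1,5]) (.n 2 4 (.l false [1,3,4,2]) (.n 4 5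
    (.l false [1,3,4,5]) (.l true [2,4,5,1])))) (.n 0 6 (.n 3 6 (.l false [0,2,6,3]) (.n 4 6 (.l
    false [0,2,6,4]) (.l true [4,6,3,0]))) (.n 1 6 (.n 3 6 (.l false [3,6,1,4]) (.l true
    [3,6,0,1])) (.l true [1,6,0,3])))) (.n 2 4 (.n 0 4 (.l false [2,0,4,1]) (.n 3 4 (.l false
    [1,3,4,2]) (.l true [3,4,0,1]))) (.n 4 5 (.n 4 6 (.n 5 6 (.l false [5,6,4,1]) (.l true
    [5,6,2,4])) (.l true [4,6,2,5])) (.l true [4,5,2,6]))))) (.n 2 4 (.n 0 4 (.n 5 6 (.n 3 5 (.n 1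
    5 (.l false [3,1,5,6]) (.n 4 5 (.l false [0,2,4,5]) (.l true [4,5,1,0]))) (.n 2 3 (.l false
    [0,4,2,3]) (.n 2 5 (.l false [0,4,2,5]) (.l true [2,5,3,0])))) (.n 2 5 (.l false [0,4,2,5]) (.n
    2 6 (.l false [0,4,2,6]) (.n 4 5 (.l false [0,2,4,5]) (.l true [2,6,5,4]))))) (.l true
    [1,4,0,3])) (.n 4 5 (.n 2 6 (.n 0 6 (.n 1 2 (.l false [0,6,2,1]) (.l true [4,2,1,0])) (.n 1 6
    (.n 3 6 (.l false [1,3,6,2]) (.l true [3,6,0,1])) (.l true [1,6,0,3]))) (.n 0 5 (.n 5 6 (.n 4 6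
    (.l false [4,6,5,0]) (.l true [2,6,4,1])) (.n 2 5 (.l false [0,2,5,4]) (.l true [6,5,2,4])))
    (.n 1 5 (.n 3 5 (.l false [1,3,5,4]) (.l true [3,5,0,1])) (.l true [1,5,0,3])))) (.n 1 5 (.n 3
    4 (.n 0 5 (.n 2 5 (.l false [0,2,5,1]) (.l true [2,5,4,1])) (.n 3 5 (.l false [1,5,3,4]) (.l
    true [3,5,0,1]))) (.n 2 5 (.n 3 5 (.l false [1,3,5,2]) (.l true [3,5,4,1])) (.l true
    [2,5,4,1]))) (.l true [1,5,4,2]))))) (.n 0 4 (.n 1 2 (.n 4 5 (.n 3 4 (.n 3 5 (.l false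
    [3,5,4,0]) (.l true [0,1,3,5])) (.l true [0,1,3,4])) (.n 4 6 (.n 3 4 (.n 3 6 (.l false
    [3,6,4,0]) (.l true [0,1,3,6])) (.l true [0,1,3,4])) (.n 2 5 (.n 1 5 (.l false [1,5,2,0]) (.l
    true [0,3,1,5])) (.n 2 4 (.l false [0,4,2,1]) (.l true [5,2,4,6]))))) (.l true [0,3,1,2])) (.l
    true [1,3,0,4])))) (.n 0 3 (.n 1 2 (.n 1 4 (.n 3 5 (.n 0 5 (.n 3 4 (.l false [0,5,3,4]) (.n 4 6
    (.n 2 3 (.l false [0,5,3,2]) (.n 2 4 (.l false [1,2,4,6]) (.l true [3,4,2,0]))) (.n 3 6 (.l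
    false [0,5,3,6]) (.n 4 5 (.l false [0,3,5,4]) (.l true [3,6,4,5]))))) (.n 1 5 (.n 2 5 (.l false
    [2,5,1,4]) (.l true [2,5,0,1])) (.l true [1,5,0,2]))) (.n 3 6 (.n 2 4 (.n 1 5 (.l false
    [2,4,1,5]) (.n 3 4 (.l false [1,2,4,3]) (.n 4 5 (.l false [1,2,4,5]) (.l true [3,4,5,1])))) (.n
    0 6 (.n 2 6 (.l false [0,3,6,2]) (.n 4 6 (.l false [0,3,6,4]) (.l true [4,6,2,0]))) (.n 1 6 (.n
    2 6 (.l false [2,6,1,4]) (.l true [2,6,0,1])) (.l true [1,6,0,2])))) (.n 3 4 (.n 0 4 (.l false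
    [3,0,4,1]) (.n 2 4 (.l false [1,2,4,3]) (.l true [2,4,0,1]))) (.n 4 5 (.n 4 6 (.n 5 6 (.l false
    [5,6,4,1]) (.l true [5,6,3,4])) (.l true [4,6,3,5])) (.l true [4,5,3,6]))))) (.n 3 4 (.n 0 4
    (.n 5 6 (.n 2 5 (.n 1 5 (.l false [2,1,5,6]) (.n 4 5 (.l false [0,3,4,5]) (.l true [4,5,1,0])))
    (.n 2 3 (.l false [0,4,3,2]) (.n 3 5 (.l false [0,4,3,5]) (.l true [3,5,2,0])))) (.n 3 5 (.l
    false [0,4,3,5]) (.n 3 6 (.l false [0,4,3,6]) (.n 4 5 (.l false [0,3,4,5]) (.l true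
    [3,6,5,4]))))) (.l true [1,4,0,2])) (.n 4 5 (.n 3 6 (.n 0 6 (.n 1 3 (.l false [0,6,3,1]) (.l
    true [4,3,1,0])) (.n 1 6 (.n 2 6 (.l false [1,2,6,3]) (.l true [2,6,0,1])) (.l true
    [1,6,0,2]))) (.n 0 5 (.n 5 6 (.n 4 6 (.l false [4,6,5,0]) (.l true [3,6,4,1])) (.n 3 5 (.l
    false [0,3,5,4]) (.l true [6,5,3,4]))) (.n 1 5 (.n 2 5 (.l false [1,2,5,4]) (.l true
    [2,5,0,1])) (.l true [1,5,0,2])))) (.n 1 5 (.n 2 4 (.n 0 5 (.n 3 5 (.l false [0,3,5,1]) (.l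
    true [3,5,4,1])) (.n 2 5 (.l false [1,5,2,4]) (.l true [2,5,0,1]))) (.n 2 5 (.n 3 5 (.l false
    [1,2,5,3]) (.l true [3,5,4,1])) (.l true [2,5,4,1]))) (.l true [1,5,4,3]))))) (.n 0 4 (.n 1 3
    (.n 4 5 (.n 2 4 (.n 2 5 (.l false [2,5,4,0]) (.l true [0,1,2,5])) (.l true [0,1,2,4])) (.n 4 6
    (.n 2 4 (.n 2 6 (.l false [2,6,4,0]) (.l true [0,1,2,6])) (.l true [0,1,2,4])) (.n 3 5 (.n 1 5
    (.l false [1,5,3,0]) (.l true [0,2,1,5])) (.n 3 4 (.l false [0,4,3,1]) (.l true [5,3,4,6])))))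
    (.l true [0,2,1,3])) (.l true [1,2,0,4]))) (.n 4 5 (.n 1 6 (.n 1 2 (.n 1 3 (.n 2 3 (.l false
    [2,3,1,6]) (.l true [2,3,0,1])) (.l true [1,3,0,2])) (.l true [1,2,0,3])) (.n 2 6 (.n 1 2 (.n 1
    3 (.n 2 3 (.l false [1,3,2,6]) (.l true [2,3,0,1])) (.l true [1,3,0,2])) (.l true [1,2,0,3]))
    (.n 4 6 (.n 1 5 (.n 2 5 (.n 1 2 (.l false [1,2,5,4]) (.l true [1,2,0,3])) (.n 5 6 (.l false
    [4,6,5,1]) (.l true [5,6,2,0]))) (.n 0 5 (.n 5 6 (.l false [4,6,5,0]) (.l true [5,6,1,0])) (.l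
    true [0,5,1,6]))) (.n 1 2 (.n 1 4 (.n 2 4 (.l false [1,2,4,5]) (.l true [2,4,6,1])) (.l true
    [1,4,6,2])) (.l true [1,2,0,3]))))) (.n 1 2 (.n 0 4 (.n 1 5 (.n 1 3 (.n 2 3 (.l false
    [2,3,1,5]) (.l true [2,3,0,1])) (.l true [1,3,0,2])) (.n 2 5 (.n 1 3 (.n 2 3 (.l false
    [1,3,2,5]) (.l true [2,3,0,1])) (.l true [1,3,0,2])) (.n 1 4 (.n 2 4 (.l false [1,2,4,0]) (.l
    true [2,4,5,1])) (.l true [1,4,5,2])))) (.n 1 3 (.n 1 4 (.n 2 3 (.l false [2,3,1,4]) (.l true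
    [2,3,0,1])) (.l true [1,4,0,2])) (.l true [1,3,0,2]))) (.l true [1,2,0,3]))))))

/-- A strategy for the cycle of length four. -/
def cycS : Strat :=
  (.n 0 1 (.n 0 2 (.n 1 2 (.n 3 4 (.n 0 3 (.n 1 3 (.l false [1,3,0,2]) (.n 1 4 (.l false
    [1,4,3,0]) (.n 2 3 (.l false [2,3,0,1]) (.n 2 4 (.l false [2,4,3,0]) (.l true [2,4,1,3])))))
    (.n 0 4 (.n 1 3 (.l false [1,3,4,0]) (.n 1 4 (.l false [1,4,0,2]) (.n 2 3 (.l false [2,3,4,0])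
    (.n 2 4 (.l false [2,4,0,1]) (.l true [2,4,1,3]))))) (.n 1 3 (.n 2 3 (.l false [2,3,1,0]) (.n 2
    4 (.l false [2,4,3,1]) (.l true [2,4,0,3]))) (.n 1 4 (.n 2 3 (.l false [2,3,4,1]) (.n 2 4 (.l
    false [2,4,1,0]) (.l true [2,4,0,3]))) (.l true [1,4,0,3]))))) (.n 0 5 (.n 1 5 (.l false
    [1,5,0,2]) (.n 2 5 (.l false [2,5,0,1]) (.n 3 5 (.n 1 3 (.l false [1,3,5,0]) (.n 2 3 (.l false
    [2,3,5,0]) (.l true [2,3,1,5]))) (.n 1 4 (.n 2 4 (.l false [2,4,1,0]) (.l true [2,4,3,5])) (.l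
    true [1,4,3,5]))))) (.n 1 5 (.n 2 5 (.l false [2,5,1,0]) (.n 3 5 (.n 0 3 (.l false [0,3,5,1])
    (.n 2 3 (.l false [2,3,5,1]) (.l true [2,3,0,5]))) (.n 0 4 (.n 2 4 (.l false [2,4,0,1]) (.l
    true [2,4,3,5])) (.l true [0,4,3,5])))) (.n 2 5 (.n 3 5 (.n 0 3 (.l false [0,3,5,2]) (.n 1 3
    (.l false [1,3,5,2]) (.l true [1,3,0,5]))) (.n 0 4 (.n 1 4 (.l false [1,4,0,2]) (.l true
    [1,4,3,5])) (.l true [0,4,3,5]))) (.n 0 3 (.n 1 3 (.l false [1,3,0,2]) (.n 2 3 (.l false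
    [2,3,0,1]) (.l true [2,3,1,5]))) (.n 1 3 (.n 2 3 (.l false [2,3,1,0]) (.l true [2,3,0,5])) (.l
    true [1,3,0,5]))))))) (.n 1 3 (.n 3 4 (.n 4 5 (.n 4 6 (.n 5 6 (.n 1 5 (.l false [1,5,4,3]) (.n
    2 3 (.l false [2,3,1,0]) (.n 3 5 (.l false [3,5,6,4]) (.l true [3,5,1,2])))) (.n 2 5 (.n 1 5
    (.l false [1,5,2,0]) (.n 2 6 (.l false [2,6,4,5]) (.l true [2,6,5,1]))) (.n 1 6 (.l false
    [1,6,4,3]) (.l true [1,6,5,2])))) (.n 2 6 (.n 1 6 (.l false [1,6,2,0]) (.n 3 6 (.n 2 4 (.l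
    false [2,4,3,6]) (.l true [2,4,6,1])) (.n 2 3 (.l false [2,3,1,0]) (.l true [2,3,6,1])))) (.n 2
    3 (.l false [2,3,1,0]) (.n 3 5 (.n 1 4 (.l false [1,4,5,3]) (.l true [1,4,6,2])) (.n 1 5 (.l
    false [1,5,4,3]) (.l true [1,5,3,2])))))) (.n 2 4 (.n 3 5 (.n 1 4 (.l false [1,4,2,0]) (.n 2 5
    (.l false [2,5,3,4]) (.l true [2,5,4,1]))) (.n 0 3 (.l false [0,3,4,2]) (.n 0 4 (.l false
    [0,4,3,1]) (.l true [0,4,5,3])))) (.n 0 3 (.n 2 5 (.n 1 5 (.l false [1,5,2,0]) (.l true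
    [1,5,4,2])) (.n 1 4 (.l false [1,4,3,0]) (.l true [1,4,5,2]))) (.n 0 4 (.l false [0,4,3,1]) (.n
    2 3 (.l false [2,3,1,0]) (.l true [2,3,0,4])))))) (.n 0 5 (.n 2 3 (.l false [2,3,1,0]) (.n 2 4
    (.n 1 4 (.l false [1,4,2,0]) (.l true [1,4,3,2])) (.n 4 5 (.n 1 4 (.l false [1,4,5,0]) (.l true
    [1,4,3,2])) (.n 3 5 (.l false [3,5,0,1]) (.l true [3,5,4,2]))))) (.n 3 5 (.n 4 5 (.n 1 4 (.l
    false [1,4,5,3]) (.n 2 3 (.l false [2,3,1,0]) (.l true [2,3,4,1]))) (.n 2 5 (.n 0 3 (.l false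
    [0,3,5,2]) (.l true [0,3,4,5])) (.n 2 3 (.l false [2,3,1,0]) (.l true [2,3,4,5])))) (.n 2 4 (.n
    1 4 (.l false [1,4,2,0]) (.n 2 3 (.l false [2,3,1,0]) (.l true [2,3,4,1]))) (.n 1 5 (.n 2 5 (.l
    false [2,5,1,0]) (.l true [2,5,3,4])) (.n 2 3 (.l false [2,3,1,0]) (.l true [2,3,5,1])))))))
    (.n 4 5 (.n 4 6 (.n 3 5 (.n 2 6 (.n 5 6 (.n 2 4 (.l false [2,4,5,6]) (.n 3 4 (.l false
    [3,4,6,5]) (.l true [3,4,2,1]))) (.n 1 6 (.l false [1,6,2,0]) (.n 2 5 (.l false [2,5,4,6]) (.l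
    true [2,5,6,1])))) (.n 3 6 (.l false [3,6,4,5]) (.l true [3,6,2,1]))) (.n 2 5 (.n 3 4 (.n 1 5
    (.l false [1,5,2,0]) (.n 2 3 (.l false [2,3,4,5]) (.l true [2,3,5,1]))) (.n 0 5 (.n 2 4 (.l
    false [2,4,5,0]) (.l true [2,4,3,1])) (.n 0 4 (.l false [0,4,5,2]) (.l true [0,4,3,5])))) (.l
    true [2,5,3,1]))) (.n 2 4 (.n 2 6 (.n 3 6 (.n 1 6 (.l false [1,6,2,0]) (.n 3 4 (.l false
    [3,4,2,6]) (.l true [3,4,6,1]))) (.n 1 4 (.l false [1,4,2,0]) (.l true [1,4,6,3]))) (.n 1 4 (.l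
    false [1,4,2,0]) (.l true [1,4,6,2]))) (.n 5 6 (.n 3 4 (.n 2 6 (.n 1 6 (.l false [1,6,2,0]) (.l
    true [1,6,4,2])) (.n 3 6 (.l false [3,6,5,4]) (.l true [3,6,2,1]))) (.l true [3,4,2,1])) (.n 0
    5 (.n 2 6 (.n 1 6 (.l false [1,6,2,0]) (.l true [1,6,4,2])) (.n 1 4 (.l false [1,4,5,0]) (.l
    true [1,4,6,2]))) (.n 0 4 (.n 2 5 (.l false [2,5,4,0]) (.l true [2,5,6,4])) (.l true
    [0,4,6,5])))))) (.n 2 4 (.n 2 5 (.n 3 4 (.n 1 4 (.l false [1,4,2,0]) (.n 3 5 (.l false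
    [3,5,2,4]) (.l true [3,5,4,1]))) (.n 1 5 (.l false [1,5,2,0]) (.l true [1,5,4,3]))) (.n 1 4 (.l
    false [1,4,2,0]) (.l true [1,4,5,2]))) (.n 4 6 (.n 5 6 (.n 3 4 (.n 2 5 (.n 1 5 (.l false
    [1,5,2,0]) (.l true [1,5,4,2])) (.n 3 5 (.l false [3,5,6,4]) (.l true [3,5,2,1]))) (.l true
    [3,4,2,1])) (.n 0 6 (.n 2 5 (.n 1 5 (.l false [1,5,2,0]) (.l true [1,5,4,2])) (.n 1 4 (.l false
    [1,4,6,0]) (.l true [1,4,5,2]))) (.n 0 4 (.n 2 6 (.l false [2,6,4,0]) (.l true [2,6,5,4])) (.l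
    true [0,4,5,6])))) (.n 0 5 (.n 1 6 (.n 2 6 (.l false [2,6,1,0]) (.n 5 6 (.l false [5,6,1,0])
    (.l true [5,6,2,4]))) (.l true [1,6,4,2])) (.n 5 6 (.n 0 6 (.n 1 5 (.l false [1,5,6,0]) (.l
    true [1,5,4,2])) (.l true [0,6,4,5])) (.n 1 6 (.n 2 6 (.l false [2,6,1,0]) (.l true [2,6,5,4]))
    (.l true [1,6,4,2]))))))))) (.n 0 3 (.n 1 2 (.n 3 4 (.n 4 5 (.n 4 6 (.n 5 6 (.n 0 5 (.l false
    [0,5,4,3]) (.n 2 3 (.l false [2,3,0,1]) (.n 3 5 (.l false [3,5,6,4]) (.l true [3,5,0,2])))) (.n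
    2 5 (.n 0 5 (.l false [0,5,2,1]) (.n 2 6 (.l false [2,6,4,5]) (.l true [2,6,5,0]))) (.n 0 6 (.l
    false [0,6,4,3]) (.l true [0,6,5,2])))) (.n 2 6 (.n 0 6 (.l false [0,6,2,1]) (.n 3 6 (.n 2 4
    (.l false [2,4,3,6]) (.l true [2,4,6,0])) (.n 2 3 (.l false [2,3,0,1]) (.l true [2,3,6,0]))))
    (.n 2 3 (.l false [2,3,0,1]) (.n 3 5 (.n 0 4 (.l false [0,4,5,3]) (.l true [0,4,6,2])) (.n 0 5
    (.l false [0,5,4,3]) (.l true [0,5,3,2])))))) (.n 2 4 (.n 3 5 (.n 0 4 (.l false [0,4,2,1]) (.n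
    2 5 (.l false [2,5,3,4]) (.l true [2,5,4,0]))) (.n 1 3 (.l false [1,3,4,2]) (.n 1 4 (.l false
    [1,4,3,0]) (.l true [1,4,5,3])))) (.n 1 3 (.n 2 5 (.n 0 5 (.l false [0,5,2,1]) (.l true
    [0,5,4,2])) (.n 0 4 (.l false [0,4,3,1]) (.l true [0,4,5,2]))) (.n 1 4 (.l false [1,4,3,0]) (.n
    2 3 (.l false [2,3,0,1]) (.l true [2,3,1,4])))))) (.n 1 5 (.n 2 3 (.l false [2,3,0,1]) (.n 2 4
    (.n 0 4 (.l false [0,4,2,1]) (.l true [0,4,3,2])) (.n 4 5 (.n 0 4 (.l false [0,4,5,1]) (.l true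
    [0,4,3,2])) (.n 3 5 (.l false [3,5,1,0]) (.l true [3,5,4,2]))))) (.n 3 5 (.n 4 5 (.n 0 4 (.l
    false [0,4,5,3]) (.n 2 3 (.l false [2,3,0,1]) (.l true [2,3,4,0]))) (.n 2 5 (.n 1 3 (.l false
    [1,3,5,2]) (.l true [1,3,4,5])) (.n 2 3 (.l false [2,3,0,1]) (.l true [2,3,4,5])))) (.n 2 4 (.n
    0 4 (.l false [0,4,2,1]) (.n 2 3 (.l false [2,3,0,1]) (.l true [2,3,4,0]))) (.n 0 5 (.n 2 5 (.l
    false [2,5,0,1]) (.l true [2,5,3,4])) (.n 2 3 (.l false [2,3,0,1]) (.l true [2,3,5,0])))))))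
    (.n 4 5 (.n 1 4 (.n 4 6 (.n 2 5 (.n 5 6 (.n 0 6 (.l false [0,6,4,1]) (.n 1 6 (.l false
    [1,6,5,4]) (.l true [1,6,0,2]))) (.n 0 5 (.l false [0,5,4,1]) (.n 2 6 (.l false [2,6,4,5]) (.l
    true [2,6,5,0])))) (.n 0 6 (.l false [0,6,4,1]) (.n 1 6 (.n 5 6 (.l false [5,6,1,4]) (.l true
    [5,6,0,2])) (.l true [1,6,0,2])))) (.n 5 6 (.n 2 6 (.n 1 6 (.l false [1,6,5,4]) (.n 2 4 (.l
    false [2,4,5,6]) (.l true [2,4,6,1]))) (.n 1 5 (.n 0 4 (.l false [0,4,5,1]) (.l true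
    [0,4,6,2])) (.n 0 5 (.l false [0,5,4,1]) (.l true [0,5,1,2])))) (.n 3 4 (.l false [3,4,1,0])
    (.n 1 5 (.n 3 5 (.l false [3,5,1,0]) (.l true [3,5,6,4])) (.n 0 5 (.l false [0,5,4,1]) (.l true
    [0,5,1,2])))))) (.n 1 5 (.n 0 4 (.l false [0,4,5,1]) (.l true [0,4,1,2])) (.n 3 4 (.n 0 5 (.l
    false [0,5,4,3]) (.l true [0,5,1,2])) (.n 0 4 (.n 3 5 (.l false [3,5,4,0]) (.l true [3,5,1,4]))
    (.l true [0,4,1,2]))))) (.n 4 6 (.n 1 4 (.n 5 6 (.n 2 5 (.n 1 5 (.l false [1,5,6,4]) (.n 2 4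
    (.l false [2,4,6,5]) (.l true [2,4,5,1]))) (.n 1 6 (.n 0 4 (.l false [0,4,6,1]) (.l true
    [0,4,5,2])) (.n 0 6 (.l false [0,6,4,1]) (.l true [0,6,1,2])))) (.n 3 4 (.l false [3,4,1,0])
    (.n 1 6 (.n 3 6 (.l false [3,6,1,0]) (.l true [3,6,5,4])) (.n 0 6 (.l false [0,6,4,1]) (.l true
    [0,6,1,2]))))) (.n 1 6 (.n 0 4 (.l false [0,4,6,1]) (.l true [0,4,1,2])) (.n 3 6 (.n 0 4 (.l
    false [0,4,6,3]) (.l true [0,4,1,2])) (.n 0 6 (.n 3 4 (.l false [3,4,6,0]) (.l true [3,4,1,6]))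
    (.l true [0,6,1,2]))))) (.n 3 5 (.n 1 5 (.l false [1,5,3,0]) (.n 3 4 (.n 2 5 (.n 2 4 (.l false
    [2,4,3,5]) (.l true [2,4,5,1])) (.n 1 4 (.l false [1,4,3,0]) (.l true [1,4,5,2]))) (.n 0 5 (.n
    1 3 (.l false [1,3,5,0]) (.l true [1,3,4,5])) (.l true [0,5,1,2])))) (.n 1 6 (.n 3 6 (.l false
    [3,6,1,0]) (.l true [3,6,4,5])) (.n 5 6 (.n 0 6 (.n 1 5 (.l false [1,5,6,0]) (.l true
    [1,5,4,6])) (.l true [0,6,1,2])) (.n 1 4 (.n 3 4 (.l false [3,4,1,0]) (.l true [3,4,6,5])) (.l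
    true [1,4,5,6])))))))) (.n 1 2 (.n 4 5 (.n 4 6 (.n 3 5 (.n 2 6 (.n 5 6 (.n 2 4 (.l false
    [2,4,5,6]) (.n 3 4 (.l false [3,4,6,5]) (.l true [3,4,2,0]))) (.n 0 6 (.l false [0,6,2,1]) (.n
    2 5 (.l false [2,5,4,6]) (.l true [2,5,6,0])))) (.n 3 6 (.l false [3,6,4,5]) (.l true
    [3,6,2,0]))) (.n 2 5 (.n 3 4 (.n 0 5 (.l false [0,5,2,1]) (.n 2 3 (.l false [2,3,4,5]) (.l true
    [2,3,5,0]))) (.n 1 5 (.n 2 4 (.l false [2,4,5,1]) (.l true [2,4,3,0])) (.n 1 4 (.l false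
    [1,4,5,2]) (.l true [1,4,3,5])))) (.l true [2,5,3,0]))) (.n 2 4 (.n 2 6 (.n 3 6 (.n 0 6 (.l
    false [0,6,2,1]) (.n 3 4 (.l false [3,4,2,6]) (.l true [3,4,6,0]))) (.n 0 4 (.l false
    [0,4,2,1]) (.l true [0,4,6,3]))) (.n 0 4 (.l false [0,4,2,1]) (.l true [0,4,6,2]))) (.n 5 6 (.n
    3 4 (.n 2 6 (.n 0 6 (.l false [0,6,2,1]) (.l true [0,6,4,2])) (.n 3 6 (.l false [3,6,5,4]) (.l
    true [3,6,2,0]))) (.l true [3,4,2,0])) (.n 1 5 (.n 2 6 (.n 0 6 (.l false [0,6,2,1]) (.l true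
    [0,6,4,2])) (.n 0 4 (.l false [0,4,5,1]) (.l true [0,4,6,2]))) (.n 1 4 (.n 2 5 (.l false
    [2,5,4,1]) (.l true [2,5,6,4])) (.l true [1,4,6,5])))))) (.n 2 4 (.n 2 5 (.n 3 4 (.n 0 4 (.l
    false [0,4,2,1]) (.n 3 5 (.l false [3,5,2,4]) (.l true [3,5,4,0]))) (.n 0 5 (.l false
    [0,5,2,1]) (.l true [0,5,4,3]))) (.n 0 4 (.l false [0,4,2,1]) (.l true [0,4,5,2]))) (.n 4 6 (.n
    5 6 (.n 3 4 (.n 2 5 (.n 0 5 (.l false [0,5,2,1]) (.l true [0,5,4,2])) (.n 3 5 (.l false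
    [3,5,6,4]) (.l true [3,5,2,0]))) (.l true [3,4,2,0])) (.n 1 6 (.n 2 5 (.n 0 5 (.l false
    [0,5,2,1]) (.l true [0,5,4,2])) (.n 0 4 (.l false [0,4,6,1]) (.l true [0,4,5,2]))) (.n 1 4 (.n
    2 6 (.l false [2,6,4,1]) (.l true [2,6,5,4])) (.l true [1,4,5,6])))) (.n 1 5 (.n 0 6 (.n 2 6
    (.l false [2,6,0,1]) (.n 5 6 (.l false [5,6,0,1]) (.l true [5,6,2,4]))) (.l true [0,6,4,2]))
    (.n 5 6 (.n 0 5 (.n 1 6 (.l false [1,6,5,0]) (.l true [1,6,4,5])) (.l true [0,5,4,2])) (.n 0 6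
    (.n 2 6 (.l false [2,6,0,1]) (.l true [2,6,5,4])) (.l true [0,6,4,2]))))))) (.n 3 4 (.n 1 4 (.n
    3 5 (.n 0 5 (.n 1 3 (.l false [1,3,5,0]) (.l true [1,3,0,2])) (.n 1 5 (.l false [1,5,3,4]) (.l
    true [1,5,0,2]))) (.n 4 5 (.n 2 3 (.n 2 5 (.l false [2,5,4,3]) (.l true [2,5,3,0])) (.n 0 5 (.l
    false [0,5,4,1]) (.l true [0,5,3,2]))) (.n 0 4 (.n 1 3 (.l false [1,3,4,0]) (.l true
    [1,3,0,2])) (.l true [0,4,5,3])))) (.n 0 4 (.n 1 3 (.l false [1,3,4,0]) (.l true [1,3,0,2]))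
    (.l true [0,4,1,2]))) (.n 4 5 (.n 1 4 (.n 2 3 (.n 1 3 (.n 2 4 (.l false [2,4,1,3]) (.l true
    [2,4,3,0])) (.l true [1,3,0,2])) (.n 1 5 (.n 0 4 (.l false [0,4,5,1]) (.l true [0,4,3,2])) (.n
    0 5 (.l false [0,5,4,1]) (.l true [0,5,1,2])))) (.n 3 5 (.n 2 3 (.n 2 4 (.l false [2,4,5,3])
    (.l true [2,4,3,0])) (.l true [2,3,4,1])) (.n 0 4 (.n 1 5 (.l false [1,5,4,0]) (.l true
    [1,5,3,4])) (.l true [0,4,1,2])))) (.n 4 6 (.n 1 6 (.n 1 3 (.n 3 5 (.n 0 5 (.l false [0,5,3,1])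
    (.l true [0,5,4,3])) (.n 0 4 (.l false [0,4,6,1]) (.l true [0,4,5,3]))) (.l true [1,3,0,2]))
    (.n 0 6 (.n 3 6 (.n 1 3 (.l false [1,3,6,0]) (.l true [1,3,0,2])) (.n 1 4 (.l false [1,4,6,0])
    (.l true [1,4,3,6]))) (.l true [0,6,1,2]))) (.n 5 6 (.n 1 5 (.n 0 6 (.l false [0,6,5,1]) (.l
    true [0,6,4,3])) (.n 0 5 (.n 1 6 (.l false [1,6,5,0]) (.l true [1,6,4,5])) (.l true
    [0,5,1,2]))) (.n 0 5 (.n 1 3 (.n 3 5 (.l false [3,5,0,1]) (.l true [3,5,6,4])) (.l true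
    [1,3,0,2])) (.l true [0,5,4,3]))))))))) (.n 0 2 (.n 0 3 (.n 1 2 (.n 3 4 (.n 4 5 (.n 4 6 (.n 5 6
    (.n 0 5 (.l false [0,5,4,3]) (.n 1 3 (.l false [1,3,0,2]) (.n 3 5 (.l false [3,5,6,4]) (.l true
    [3,5,0,1])))) (.n 1 5 (.n 0 5 (.l false [0,5,1,2]) (.n 1 6 (.l false [1,6,4,5]) (.l true
    [1,6,5,0]))) (.n 0 6 (.l false [0,6,4,3]) (.l true [0,6,5,1])))) (.n 1 6 (.n 0 6 (.l false
    [0,6,1,2]) (.n 3 6 (.n 1 4 (.l false [1,4,3,6]) (.l true [1,4,6,0])) (.n 1 3 (.l false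
    [1,3,0,2]) (.l true [1,3,6,0])))) (.n 1 3 (.l false [1,3,0,2]) (.n 3 5 (.n 0 4 (.l false
    [0,4,5,3]) (.l true [0,4,6,1])) (.n 0 5 (.l false [0,5,4,3]) (.l true [0,5,3,1])))))) (.n 1 4
    (.n 3 5 (.n 0 4 (.l false [0,4,1,2]) (.n 1 5 (.l false [1,5,3,4]) (.l true [1,5,4,0]))) (.n 2 3
    (.l false [2,3,4,1]) (.n 2 4 (.l false [2,4,3,0]) (.l true [2,4,5,3])))) (.n 2 3 (.n 1 5 (.n 0
    5 (.l false [0,5,1,2]) (.l true [0,5,4,1])) (.n 0 4 (.l false [0,4,3,2]) (.l true [0,4,5,1])))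
    (.n 1 3 (.l false [1,3,0,2]) (.n 2 4 (.l false [2,4,3,0]) (.l true [2,4,1,3])))))) (.n 1 4 (.n
    0 4 (.l false [0,4,1,2]) (.n 1 3 (.l false [1,3,0,2]) (.l true [1,3,4,0]))) (.n 3 5 (.n 4 5 (.n
    0 4 (.l false [0,4,5,3]) (.n 1 3 (.l false [1,3,0,2]) (.l true [1,3,4,0]))) (.n 2 3 (.n 0 5 (.l
    false [0,5,3,2]) (.l true [0,5,4,1])) (.n 2 5 (.l false [2,5,3,0]) (.l true [2,5,4,3])))) (.n 0
    5 (.n 1 5 (.l false [1,5,0,2]) (.l true [1,5,3,4])) (.n 1 3 (.l false [1,3,0,2]) (.l true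
    [1,3,5,0])))))) (.n 4 5 (.n 2 4 (.n 4 6 (.n 1 5 (.n 5 6 (.n 0 6 (.l false [0,6,4,2]) (.n 2 6
    (.l false [2,6,5,4]) (.l true [2,6,0,1]))) (.n 0 5 (.l false [0,5,4,2]) (.n 1 6 (.l false
    [1,6,4,5]) (.l true [1,6,5,0])))) (.n 0 6 (.l false [0,6,4,2]) (.n 2 6 (.n 5 6 (.l false
    [5,6,2,4]) (.l true [5,6,0,1])) (.l true [2,6,0,1])))) (.n 5 6 (.n 1 6 (.n 1 4 (.l false
    [1,4,5,6]) (.n 2 6 (.l false [2,6,5,4]) (.l true [2,6,4,1]))) (.n 2 5 (.n 0 4 (.l false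
    [0,4,5,2]) (.l true [0,4,6,1])) (.n 0 5 (.l false [0,5,4,2]) (.l true [0,5,2,1])))) (.n 3 4 (.l
    false [3,4,2,0]) (.n 2 5 (.n 3 5 (.l false [3,5,2,0]) (.l true [3,5,6,4])) (.n 0 5 (.l false
    [0,5,4,2]) (.l true [0,5,2,1])))))) (.n 2 5 (.n 0 4 (.l false [0,4,5,2]) (.l true [0,4,2,1]))
    (.n 3 4 (.n 0 5 (.l false [0,5,4,3]) (.l true [0,5,2,1])) (.n 0 4 (.n 3 5 (.l false [3,5,4,0])
    (.l true [3,5,2,4])) (.l true [0,4,2,1]))))) (.n 4 6 (.n 2 4 (.n 5 6 (.n 1 5 (.n 1 4 (.l false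
    [1,4,6,5]) (.n 2 5 (.l false [2,5,6,4]) (.l true [2,5,4,1]))) (.n 2 6 (.n 0 4 (.l false
    [0,4,6,2]) (.l true [0,4,5,1])) (.n 0 6 (.l false [0,6,4,2]) (.l true [0,6,2,1])))) (.n 3 4 (.l
    false [3,4,2,0]) (.n 2 6 (.n 3 6 (.l false [3,6,2,0]) (.l true [3,6,5,4])) (.n 0 6 (.l false
    [0,6,4,2]) (.l true [0,6,2,1]))))) (.n 2 6 (.n 0 4 (.l false [0,4,6,2]) (.l true [0,4,2,1]))
    (.n 3 6 (.n 0 4 (.l false [0,4,6,3]) (.l true [0,4,2,1])) (.n 0 6 (.n 3 4 (.l false [3,4,6,0])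
    (.l true [3,4,2,6])) (.l true [0,6,2,1]))))) (.n 3 5 (.n 2 5 (.l false [2,5,3,0]) (.n 3 4 (.n 1
    5 (.n 1 4 (.l false [1,4,3,5]) (.l true [1,4,5,2])) (.n 2 4 (.l false [2,4,3,0]) (.l true
    [2,4,5,1]))) (.n 0 5 (.n 2 3 (.l false [2,3,5,0]) (.l true [2,3,4,5])) (.l true [0,5,2,1]))))
    (.n 2 6 (.n 3 6 (.l false [3,6,2,0]) (.l true [3,6,4,5])) (.n 5 6 (.n 0 6 (.n 2 5 (.l false
    [2,5,6,0]) (.l true [2,5,4,6])) (.l true [0,6,2,1])) (.n 2 4 (.n 3 4 (.l false [3,4,2,0]) (.l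
    true [3,4,6,5])) (.l true [2,4,5,6])))))))) (.n 1 2 (.n 4 5 (.n 4 6 (.n 3 5 (.n 1 6 (.n 5 6 (.n
    1 4 (.l false [1,4,5,6]) (.n 3 4 (.l false [3,4,6,5]) (.l true [3,4,1,0]))) (.n 0 6 (.l false
    [0,6,1,2]) (.n 1 5 (.l false [1,5,4,6]) (.l true [1,5,6,0])))) (.n 3 6 (.l false [3,6,4,5]) (.l
    true [3,6,1,0]))) (.n 1 5 (.n 3 4 (.n 0 5 (.l false [0,5,1,2]) (.n 1 3 (.l false [1,3,4,5]) (.l
    true [1,3,5,0]))) (.n 2 5 (.n 1 4 (.l false [1,4,5,2]) (.l true [1,4,3,0])) (.n 2 4 (.l false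
    [2,4,5,1]) (.l true [2,4,3,5])))) (.l true [1,5,3,0]))) (.n 1 4 (.n 1 6 (.n 3 6 (.n 0 6 (.l
    false [0,6,1,2]) (.n 3 4 (.l false [3,4,1,6]) (.l true [3,4,6,0]))) (.n 0 4 (.l false
    [0,4,1,2]) (.l true [0,4,6,3]))) (.n 0 4 (.l false [0,4,1,2]) (.l true [0,4,6,1]))) (.n 5 6 (.n
    3 4 (.n 1 6 (.n 0 6 (.l false [0,6,1,2]) (.l true [0,6,4,1])) (.n 3 6 (.l false [3,6,5,4]) (.l
    true [3,6,1,0]))) (.l true [3,4,1,0])) (.n 2 5 (.n 1 6 (.n 0 6 (.l false [0,6,1,2]) (.l true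
    [0,6,4,1])) (.n 0 4 (.l false [0,4,5,2]) (.l true [0,4,6,1]))) (.n 1 5 (.n 2 4 (.l false
    [2,4,5,1]) (.l true [2,4,6,5])) (.l true [1,5,6,4])))))) (.n 1 4 (.n 1 5 (.n 3 4 (.n 0 4 (.l
    false [0,4,1,2]) (.n 3 5 (.l false [3,5,1,4]) (.l true [3,5,4,0]))) (.n 0 5 (.l false
    [0,5,1,2]) (.l true [0,5,4,3]))) (.n 0 4 (.l false [0,4,1,2]) (.l true [0,4,5,1]))) (.n 4 6 (.n
    5 6 (.n 3 4 (.n 1 5 (.n 0 5 (.l false [0,5,1,2]) (.l true [0,5,4,1])) (.n 3 5 (.l false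
    [3,5,6,4]) (.l true [3,5,1,0]))) (.l true [3,4,1,0])) (.n 2 6 (.n 1 5 (.n 0 5 (.l false
    [0,5,1,2]) (.l true [0,5,4,1])) (.n 0 4 (.l false [0,4,6,2]) (.l true [0,4,5,1]))) (.n 1 6 (.n
    2 4 (.l false [2,4,6,1]) (.l true [2,4,5,6])) (.l true [1,6,5,4])))) (.n 2 5 (.n 0 6 (.n 1 6
    (.l false [1,6,0,2]) (.n 5 6 (.l false [5,6,0,2]) (.l true [5,6,1,4]))) (.l true [0,6,4,1]))
    (.n 5 6 (.n 0 5 (.n 2 6 (.l false [2,6,5,0]) (.l true [2,6,4,5])) (.l true [0,5,4,1])) (.n 0 6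
    (.n 1 6 (.l false [1,6,0,2]) (.l true [1,6,5,4])) (.l true [0,6,4,1]))))))) (.n 3 4 (.n 1 5 (.n
    3 5 (.n 2 4 (.n 0 5 (.n 2 3 (.l false [2,3,5,0]) (.l true [2,3,0,1])) (.n 2 5 (.l false
    [2,5,3,4]) (.l true [2,5,0,1]))) (.n 0 4 (.n 2 3 (.l false [2,3,4,0]) (.l true [2,3,0,1])) (.l
    true [0,4,2,1]))) (.n 4 5 (.n 2 5 (.n 2 3 (.l false [2,3,4,5]) (.l true [2,3,0,1])) (.n 1 3 (.l
    false [1,3,4,5]) (.l true [1,3,5,2]))) (.n 0 4 (.n 2 3 (.l false [2,3,4,0]) (.l true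
    [2,3,0,1])) (.l true [0,4,5,3])))) (.n 2 3 (.n 2 4 (.n 4 5 (.n 3 5 (.l false [3,5,4,2]) (.l
    true [3,5,1,0])) (.n 0 4 (.l false [0,4,3,2]) (.l true [0,4,5,1]))) (.n 0 4 (.l false
    [0,4,3,2]) (.l true [0,4,2,1]))) (.l true [2,3,0,1]))) (.n 4 5 (.n 2 4 (.n 1 3 (.n 1 4 (.n 2 3
    (.l false [2,3,1,4]) (.l true [2,3,0,1])) (.l true [1,4,3,0])) (.n 2 5 (.n 0 4 (.l false
    [0,4,5,2]) (.l true [0,4,3,1])) (.n 0 5 (.l false [0,5,4,2]) (.l true [0,5,2,1])))) (.n 3 5 (.n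
    1 3 (.n 1 4 (.l false [1,4,5,3]) (.l true [1,4,3,0])) (.l true [1,3,4,2])) (.n 0 4 (.n 2 5 (.l
    false [2,5,4,0]) (.l true [2,5,3,4])) (.l true [0,4,2,1])))) (.n 4 6 (.n 2 6 (.n 2 3 (.n 3 5
    (.n 0 5 (.l false [0,5,3,2]) (.l true [0,5,4,3])) (.n 0 4 (.l false [0,4,6,2]) (.l true
    [0,4,5,3]))) (.l true [2,3,0,1])) (.n 0 6 (.n 3 6 (.n 2 3 (.l false [2,3,6,0]) (.l true
    [2,3,0,1])) (.n 2 4 (.l false [2,4,6,0]) (.l true [2,4,3,6]))) (.l true [0,6,2,1]))) (.n 5 6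
    (.n 2 5 (.n 0 6 (.l false [0,6,5,2]) (.l true [0,6,4,3])) (.n 0 5 (.n 2 6 (.l false [2,6,5,0])
    (.l true [2,6,4,5])) (.l true [0,5,2,1]))) (.n 0 5 (.n 2 3 (.n 3 5 (.l false [3,5,0,2]) (.l
    true [3,5,6,4])) (.l true [2,3,0,1])) (.l true [0,5,4,3])))))))) (.n 1 2 (.n 1 3 (.n 4 5 (.n 2
    4 (.n 4 6 (.n 0 5 (.n 5 6 (.n 1 6 (.l false [1,6,4,2]) (.n 2 6 (.l false [2,6,5,4]) (.l true
    [2,6,1,0]))) (.n 0 6 (.l false [0,6,4,5]) (.n 1 5 (.l false [1,5,4,2]) (.l true [1,5,6,0]))))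
    (.n 1 6 (.l false [1,6,4,2]) (.n 2 6 (.n 5 6 (.l false [5,6,2,4]) (.l true [5,6,1,0])) (.l true
    [2,6,1,0])))) (.n 5 6 (.n 0 6 (.n 0 4 (.l false [0,4,5,6]) (.n 2 6 (.l false [2,6,5,4]) (.l
    true [2,6,4,0]))) (.n 2 5 (.n 1 4 (.l false [1,4,5,2]) (.l true [1,4,6,0])) (.n 1 5 (.l false
    [1,5,4,2]) (.l true [1,5,2,0])))) (.n 3 4 (.l false [3,4,2,1]) (.n 2 5 (.n 3 5 (.l false
    [3,5,2,1]) (.l true [3,5,6,4])) (.n 1 5 (.l false [1,5,4,2]) (.l true [1,5,2,0])))))) (.n 2 5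
    (.n 1 4 (.l false [1,4,5,2]) (.l true [1,4,2,0])) (.n 3 4 (.n 1 5 (.l false [1,5,4,3]) (.l true
    [1,5,2,0])) (.n 1 4 (.n 3 5 (.l false [3,5,4,1]) (.l true [3,5,2,4])) (.l true [1,4,2,0])))))
    (.n 4 6 (.n 2 4 (.n 5 6 (.n 0 5 (.n 0 4 (.l false [0,4,6,5]) (.n 2 5 (.l false [2,5,6,4]) (.l
    true [2,5,4,0]))) (.n 2 6 (.n 1 4 (.l false [1,4,6,2]) (.l true [1,4,5,0])) (.n 1 6 (.l false
    [1,6,4,2]) (.l true [1,6,2,0])))) (.n 3 4 (.l false [3,4,2,1]) (.n 2 6 (.n 3 6 (.l false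
    [3,6,2,1]) (.l true [3,6,5,4])) (.n 1 6 (.l false [1,6,4,2]) (.l true [1,6,2,0]))))) (.n 2 6
    (.n 1 4 (.l false [1,4,6,2]) (.l true [1,4,2,0])) (.n 3 6 (.n 1 4 (.l false [1,4,6,3]) (.l true
    [1,4,2,0])) (.n 1 6 (.n 3 4 (.l false [3,4,6,1]) (.l true [3,4,2,6])) (.l true [1,6,2,0])))))
    (.n 3 5 (.n 2 5 (.l false [2,5,3,1]) (.n 3 4 (.n 0 5 (.n 0 4 (.l false [0,4,3,5]) (.l true
    [0,4,5,2])) (.n 2 4 (.l false [2,4,3,1]) (.l true [2,4,5,0]))) (.n 1 5 (.n 2 3 (.l false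
    [2,3,5,1]) (.l true [2,3,4,5])) (.l true [1,5,2,0])))) (.n 2 6 (.n 3 6 (.l false [3,6,2,1]) (.l
    true [3,6,4,5])) (.n 5 6 (.n 1 6 (.n 2 5 (.l false [2,5,6,1]) (.l true [2,5,4,6])) (.l true
    [1,6,2,0])) (.n 2 4 (.n 3 4 (.l false [3,4,2,1]) (.l true [3,4,6,5])) (.l true [2,4,5,6])))))))
    (.n 3 4 (.n 0 5 (.n 3 5 (.n 2 4 (.n 1 5 (.n 2 3 (.l false [2,3,5,1]) (.l true [2,3,1,0])) (.n 2
    5 (.l false [2,5,3,4]) (.l true [2,5,1,0]))) (.n 1 4 (.n 2 3 (.l false [2,3,4,1]) (.l true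
    [2,3,1,0])) (.l true [1,4,2,0]))) (.n 4 5 (.n 2 5 (.n 2 3 (.l false [2,3,4,5]) (.l true
    [2,3,1,0])) (.n 0 3 (.l false [0,3,4,5]) (.l true [0,3,5,2]))) (.n 1 4 (.n 2 3 (.l false
    [2,3,4,1]) (.l true [2,3,1,0])) (.l true [1,4,5,3])))) (.n 2 3 (.n 2 4 (.n 4 5 (.n 3 5 (.l
    false [3,5,4,2]) (.l true [3,5,0,1])) (.n 1 4 (.l false [1,4,3,2]) (.l true [1,4,5,0]))) (.n 1
    4 (.l false [1,4,3,2]) (.l true [1,4,2,0]))) (.l true [2,3,1,0]))) (.n 4 5 (.n 2 4 (.n 0 3 (.n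
    0 4 (.n 2 3 (.l false [2,3,0,4]) (.l true [2,3,1,0])) (.l true [0,4,3,1])) (.n 2 5 (.n 1 4 (.l
    false [1,4,5,2]) (.l true [1,4,3,0])) (.n 1 5 (.l false [1,5,4,2]) (.l true [1,5,2,0])))) (.n 3
    5 (.n 0 3 (.n 0 4 (.l false [0,4,5,3]) (.l true [0,4,3,1])) (.l true [0,3,4,2])) (.n 1 4 (.n 2
    5 (.l false [2,5,4,1]) (.l true [2,5,3,4])) (.l true [1,4,2,0])))) (.n 4 6 (.n 2 6 (.n 2 3 (.n
    3 5 (.n 1 5 (.l false [1,5,3,2]) (.l true [1,5,4,3])) (.n 1 4 (.l false [1,4,6,2]) (.l true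
    [1,4,5,3]))) (.l true [2,3,1,0])) (.n 1 6 (.n 3 6 (.n 2 3 (.l false [2,3,6,1]) (.l true
    [2,3,1,0])) (.n 2 4 (.l false [2,4,6,1]) (.l true [2,4,3,6]))) (.l true [1,6,2,0]))) (.n 5 6
    (.n 2 5 (.n 1 6 (.l false [1,6,5,2]) (.l true [1,6,4,3])) (.n 1 5 (.n 2 6 (.l false [2,6,5,1])
    (.l true [2,6,4,5])) (.l true [1,5,2,0]))) (.n 1 5 (.n 2 3 (.n 3 5 (.l false [3,5,1,2]) (.l
    true [3,5,6,4])) (.l true [2,3,1,0])) (.l true [1,5,4,3]))))))) (.n 3 4 (.n 0 5 (.n 1 5 (.n 2 5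
    (.n 0 3 (.n 1 3 (.l false [1,3,0,5]) (.n 2 3 (.l false [2,3,0,5]) (.l true [2,3,1,0]))) (.n 1 3
    (.n 2 3 (.l false [2,3,1,5]) (.l true [2,3,0,1])) (.l true [1,3,0,2]))) (.n 3 5 (.n 0 4 (.l
    false [0,4,3,5]) (.n 1 4 (.l false [1,4,3,5]) (.l true [1,4,0,2]))) (.n 0 3 (.n 1 3 (.l false
    [1,3,0,5]) (.l true [1,3,5,2])) (.l true [0,3,5,2])))) (.n 2 5 (.n 3 5 (.n 0 4 (.l false
    [0,4,3,5]) (.n 2 4 (.l false [2,4,3,5]) (.l true [2,4,0,1]))) (.n 0 3 (.n 2 3 (.l false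
    [2,3,0,5]) (.l true [2,3,5,1])) (.l true [0,3,5,1]))) (.l true [2,5,1,0]))) (.n 1 5 (.n 2 5 (.n
    3 5 (.n 1 4 (.l false [1,4,3,5]) (.n 2 4 (.l false [2,4,3,5]) (.l true [2,4,1,0]))) (.n 1 3 (.n
    2 3 (.l false [2,3,1,5]) (.l true [2,3,5,0])) (.l true [1,3,5,0]))) (.l true [2,5,0,1])) (.l
    true [1,5,0,2]))) (.n 0 3 (.n 0 4 (.n 1 3 (.n 1 4 (.l false [1,4,0,3]) (.n 2 3 (.n 2 4 (.l
    false [2,4,0,3]) (.l true [2,4,1,0])) (.l true [2,3,4,1]))) (.n 2 3 (.n 2 4 (.l false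
    [2,4,0,3]) (.l true [2,4,3,1])) (.l true [2,3,1,0]))) (.n 1 3 (.n 1 4 (.n 2 3 (.n 2 4 (.l false
    [2,4,1,3]) (.l true [2,4,0,1])) (.l true [2,3,4,0])) (.l true [1,4,0,2])) (.l true [1,3,4,0])))
    (.n 1 3 (.n 1 4 (.n 2 3 (.n 2 4 (.l false [2,4,1,3]) (.l true [2,4,3,0])) (.l true [2,3,0,1]))
    (.l true [1,4,3,0])) (.l true [1,3,0,2])))))))

theorem pawS_ok : check pawE pawS [] [] = true := by decide +kernel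

theorem cycS_ok : check cycE cycS [] [] = true := by decide +kernel

end Pool.Agent.ODR61
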