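import Mathlib

/-!
# The online Ramsey game in a class of graphs

Vertices are natural numbers. A position is a pair of graphs, the red and the blue edges.
-/

set_option autoImplicit false

namespace Pool.Agent.ODR61

open SimpleGraph

/-- `BuilderWins G F R B`: Builder can force a monochromatic copy of `G` from the position with
the red graph `R` and the blue graph `B`, if the graph of all edges must stay in the class `F`.
Either there is a copy already, or Builder has a new edge `uv` with `F` for the new graph, such
that he can force a copy whether Painter colours `uv` red or blue. -/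
inductive BuilderWins {V : Type} (G : SimpleGraph V) (F : SimpleGraph ℕ → Prop) :
    SimpleGraph ℕ → SimpleGraph ℕ → Prop
  | won (R B : SimpleGraph ℕ) (h : G.IsContained R ∨ G.IsContained B) : BuilderWins G F R B
  | move (R B : SimpleGraph ℕ) (u v : ℕ) (huv : u ≠ v) (hn : ¬ (R ⊔ B).Adj u v)
      (hF : F (R ⊔ B ⊔ edge u v)) (hR : BuilderWins G F (R ⊔ edge u v) B)
      (hB : BuilderWins G F R (B ⊔ edge u v)) : BuilderWins G F R B

/-- Every vertex has at most `k` neighbours. -/
def MaxDegreeLE (k : ℕ) (H : SimpleGraph ℕ) : Prop := ∀ v, (H.neighborSet v).encard ≤ k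

theorem BuilderWins.mono {V W : Type} {G : SimpleGraph V} {G' : SimpleGraph W}
    {F : SimpleGraph ℕ → Prop} (h : G.IsContained G') :
    ∀ {R B : SimpleGraph ℕ}, BuilderWins G' F R B → BuilderWins G F R B := by
  intro R B hw
  induction hw with
  | won R B h' =>
    refine .won R B ?_
    rcases h' with h' | h'
    · exact .inl (h.trans h')
    · exact .inr (h.trans h')
  | move R B u v huv hn hF _ _ ihR ihB => exact .move R B u v huv hn hF ihR ihB

/-- The graph with the edges of the list. -/
def gr (E : List (ℕ × ℕ)) : SimpleGraph ℕ := SimpleGraph.fromRel fun a b => (a, b) ∈ E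

theorem gr_nil : gr [] = ⊥ := by
  ext a b
  simp [gr]

theorem gr_cons (E : List (ℕ × ℕ)) {u v : ℕ} (_huv : u ≠ v) :
    gr ((u, v) :: E) = gr E ⊔ edge u v := by
  ext a b
  simp only [gr, SimpleGraph.fromRel_adj, List.mem_cons, Prod.mk.injEq, SimpleGraph.sup_adj,
    SimpleGraph.edge_adj]
  tauto

/-- Is `ab` an edge of the list? -/
def mem2 (E : List (ℕ × ℕ)) (a b : ℕ) : Bool :=
  E.any fun p => (p.1 == a && p.2 == b) || (p.1 == b && p.2 == a)

theorem mem2_iff (E : List (ℕ × ℕ)) (a b : ℕ) :
    mem2 E a b = true ↔ (a, b) ∈ E ∨ (b, a) ∈ E := by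
  simp only [mem2, List.any_eq_true, Bool.or_eq_true, Bool.and_eq_true, beq_iff_eq]
  constructor
  · rintro ⟨⟨x, y⟩, hp, ⟨rfl, rfl⟩ | ⟨rfl, rfl⟩⟩
    · exact .inl hp
    · exact .inr hp
  · rintro (h | h)
    · exact ⟨_, h, .inl ⟨rfl, rfl⟩⟩
    · exact ⟨_, h, .inr ⟨rfl, rfl⟩⟩

theorem gr_adj (E : List (ℕ × ℕ)) (a b : ℕ) : (gr E).Adj a b ↔ a ≠ b ∧ mem2 E a b = true := by
  rw [mem2_iff]
  simp [gr]

/-- The number of edges of the list at the vertex `w`. -/
def degc (E : List (ℕ × ℕ)) (w : ℕ) : ℕ := E.countP fun p => p.1 == w || p.2 == w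

theorem degc_cons (E : List (ℕ × ℕ)) (u v w : ℕ) :
    degc ((u, v) :: E) w = degc E w + if u = w ∨ v = w then 1 else 0 := by
  unfold degc
  rw [List.countP_cons]
  by_cases h : u = w ∨ v = w
  · have : (u == w || v == w) = true := by simpa using h
    simp [h, this]
  · have : (u == w || v == w) = false := by
      push Not at h
      simp [h.1, h.2]
    simp [h, this]

theorem encard_gr (E : List (ℕ × ℕ)) (w : ℕ) : ((gr E).neighborSet w).encard ≤ degc E w := by
  induction E with
  | nil =>
    have : (gr []).neighborSet w = ∅ := by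
      rw [gr_nil]
      ext a
      simp
    rw [this]
    simp
  | cons p E ih =>
    obtain ⟨u, v⟩ := p
    rw [degc_cons]
    by_cases h : u = w ∨ v = w
    · rw [if_pos h]
      have hs : (gr ((u, v) :: E)).neighborSet w ⊆
          (gr E).neighborSet w ∪ {if u = w then v else u} := by
        intro a ha
        rw [SimpleGraph.mem_neighborSet, gr_adj, mem2_iff] at ha
        rw [Set.mem_union, SimpleGraph.mem_neighborSet, gr_adj, mem2_iff, Set.mem_singleton_iff]
        obtain ⟨hwa, ha⟩ := ha
        simp only [List.mem_cons, Prod.mk.injEq] at ha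
        split_ifs with huw
        · rcases ha with (⟨h1, h2⟩ | h1) | (⟨h1, h2⟩ | h1)
          · exact .inr h2
          · exact .inl ⟨hwa, .inl h1⟩
          · omega
          · exact .inl ⟨hwa, .inr h1⟩
        · rcases ha with (⟨h1, h2⟩ | h1) | (⟨h1, h2⟩ | h1)
          · exact absurd h1.symm huw
          · exact .inl ⟨hwa, .inl h1⟩
          · exact .inr h1
          · exact .inl ⟨hwa, .inr h1⟩
      calc ((gr ((u, v) :: E)).neighborSet w).encard
          ≤ ((gr E).neighborSet w ∪ {if u = w then v else u}).encard := Set.encard_le_encard hs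
        _ ≤ ((gr E).neighborSet w).encard + ({if u = w then v else u} : Set ℕ).encard :=
            Set.encard_union_le _ _
        _ ≤ ((degc E w : ℕ) : ℕ∞) + 1 := by
            rw [Set.encard_singleton]
            gcongr
        _ = ((degc E w + 1 : ℕ) : ℕ∞) := by push_cast; rfl
    · rw [if_neg h, add_zero]
      push Not at h
      have hs : (gr ((u, v) :: E)).neighborSet w ⊆ (gr E).neighborSet w := by
        intro a ha
        rw [SimpleGraph.mem_neighborSet, gr_adj, mem2_iff] at ha
        rw [SimpleGraph.mem_neighborSet, gr_adj, mem2_iff]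
        obtain ⟨hwa, ha⟩ := ha
        simp only [List.mem_cons, Prod.mk.injEq] at ha
        refine ⟨hwa, ?_⟩
        rcases ha with (⟨h1, _⟩ | h1) | (⟨_, h2⟩ | h1)
        · exact absurd h1.symm h.1
        · exact .inl h1
        · exact absurd h2.symm h.2
        · exact .inr h1
      exact (Set.encard_le_encard hs).trans ih

/-- A strategy of Builder: at a node he presents the edge `uv` and continues with `r` or `b`
after red or blue; at a leaf there is a copy of the goal graph in the colour `c` (`true` is
blue), at the vertices `w`. -/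
inductive Strat : Type
  | l (c : Bool) (w : List ℕ) : Strat
  | n (u v : ℕ) (r b : Strat) : Strat

/-- Check of a leaf. -/
def leafOK (goal : List (ℕ × ℕ)) (E : List (ℕ × ℕ)) (w : List ℕ) : Bool :=
  w.length == 4 && w.Nodup && goal.all fun p => mem2 E (w.getD p.1 0) (w.getD p.2 0)

/-- Check of a strategy. -/
def check (goal : List (ℕ × ℕ)) : Strat → List (ℕ × ℕ) → List (ℕ × ℕ) → Bool
  | .l c w, R, B => leafOK goal (if c then B else R) w
  | .n u v r b, R, B =>
    !(u == v) && !mem2 R u v && !mem2 B u v && Nat.ble (degc R u + degc B u + 1) 4 &&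
      Nat.ble (degc R v + degc B v + 1) 4 && check goal r ((u, v) :: R) B &&
      check goal b R ((u, v) :: B)

theorem leaf_sound (goal E : List (ℕ × ℕ)) (w : List ℕ) (G : SimpleGraph (Fin 4))
    (hG : ∀ i j : Fin 4, G.Adj i j → (i.val, j.val) ∈ goal ∨ (j.val, i.val) ∈ goal)
    (h : leafOK goal E w = true) : G.IsContained (gr E) := by
  unfold leafOK at h
  simp only [Bool.and_eq_true, beq_iff_eq, decide_eq_true_eq, List.all_eq_true] at h
  obtain ⟨⟨hl, hnd⟩, hall⟩ := h
  have hinj : Function.Injective fun i : Fin 4 => w.getD i.val 0 := by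
    intro i j hij
    have hi : i.val < w.length := by have := i.isLt; omega
    have hj : j.val < w.length := by have := j.isLt; omega
    have h1 : w.getD i.val 0 = w[i.val] := by simp [List.getD, hi]
    have h2 : w.getD j.val 0 = w[j.val] := by simp [List.getD, hj]
    have h3 : w[i.val] = w[j.val] := by
      rw [← h1, ← h2]
      exact hij
    exact Fin.ext ((List.Nodup.getElem_inj_iff hnd).1 h3)
  refine ⟨⟨⟨fun i => w.getD i.val 0, ?_⟩, hinj⟩⟩
  intro i j hij
  rw [gr_adj]
  refine ⟨fun he => G.ne_of_adj hij (hinj he), ?_⟩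
  rcases hG i j hij with h1 | h1
  · exact hall _ h1
  · have := hall _ h1
    rw [mem2_iff] at this ⊢
    exact this.symm

theorem check_sound (goal : List (ℕ × ℕ)) (G : SimpleGraph (Fin 4))
    (hG : ∀ i j : Fin 4, G.Adj i j → (i.val, j.val) ∈ goal ∨ (j.val, i.val) ∈ goal) :
    ∀ (t : Strat) (R B : List (ℕ × ℕ)), (∀ w, degc R w + degc B w ≤ 4) →
      check goal t R B = true → BuilderWins G (MaxDegreeLE 4) (gr R) (gr B) := by
  intro t
  induction t with
  | l c w =>
    intro R B _ h
    unfold check at h
    cases c with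
    | true => exact .won _ _ (.inr (leaf_sound goal B w G hG h))
    | false => exact .won _ _ (.inl (leaf_sound goal R w G hG h))
  | n u v r b ihr ihb =>
    intro R B hd h
    unfold check at h
    simp only [Bool.and_eq_true, Bool.not_eq_true', beq_eq_false_iff_ne, Nat.ble_eq] at h
    obtain ⟨⟨⟨⟨⟨⟨huv, hR⟩, hB⟩, hu⟩, hv⟩, hr⟩, hb⟩ := h
    have hdR : ∀ w, degc ((u, v) :: R) w + degc B w ≤ 4 := by
      intro w
      rw [degc_cons]
      split_ifs with hw
      · rcases hw with rfl | rfl
        · omega
        · omega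
      · have := hd w
        omega
    have hdB : ∀ w, degc R w + degc ((u, v) :: B) w ≤ 4 := by
      intro w
      rw [degc_cons]
      split_ifs with hw
      · rcases hw with rfl | rfl
        · omega
        · omega
      · have := hd w
        omega
    refine .move _ _ u v huv ?_ ?_ ?_ ?_
    · rw [SimpleGraph.sup_adj, gr_adj, gr_adj, hR, hB]
      simp
    · have he : gr R ⊔ gr B ⊔ edge u v = gr ((u, v) :: R) ⊔ gr B := by
        rw [gr_cons R huv, sup_right_comm]
      rw [he]
      intro w
      have hs : (gr ((u, v) :: R) ⊔ gr B).neighborSet w =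
          (gr ((u, v) :: R)).neighborSet w ∪ (gr B).neighborSet w := by
        ext a
        simp
      rw [hs]
      refine (Set.encard_union_le _ _).trans ?_
      refine (add_le_add (encard_gr _ w) (encard_gr _ w)).trans ?_
      exact_mod_cast hdR w
    · rw [← gr_cons R huv]
      exact ihr _ _ hdR hr
    · rw [← gr_cons B huv]
      exact ihb _ _ hdB hb

end Pool.Agent.ODR61
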