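import Pool.Agent.ODR61.Game

/-!
# Painter's strategy in graphs of maximum degree four
-/

set_option autoImplicit false

namespace Pool.Agent.ODR61

open SimpleGraph

theorem encard_image_le {V : Type} {G : SimpleGraph V} {R : SimpleGraph ℕ} (f : Copy G R)
    (u : V) : (G.neighborSet u).encard ≤ (R.neighborSet (f u)).encard := by
  have h1 : (f '' G.neighborSet u).encard = (G.neighborSet u).encard :=
    Function.Injective.encard_image f.injective _
  rw [← h1]
  apply Set.encard_le_encard
  rintro _ ⟨x, hx, rfl⟩
  exact f.toHom.map_adj hx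

theorem nbr_sup_edge {H : SimpleGraph ℕ} {a b w : ℕ} (ha : w ≠ a) (hb : w ≠ b) :
    (H ⊔ edge a b).neighborSet w = H.neighborSet w := by
  ext x
  simp only [mem_neighborSet, sup_adj, edge_adj]
  tauto

theorem nbr_sup_edge_sub {H : SimpleGraph ℕ} {a b w : ℕ} :
    ∃ c, (H ⊔ edge a b).neighborSet w ⊆ H.neighborSet w ∪ {c} := by
  by_cases ha : w = a
  · refine ⟨b, ?_⟩
    intro x
    simp only [mem_neighborSet, sup_adj, edge_adj, Set.mem_union, Set.mem_singleton_iff]
    subst ha
    intro h
    rcases h with h | ⟨⟨_, h⟩ | ⟨h1, h2⟩, h3⟩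
    · exact .inl h
    · exact .inr h
    · exact absurd h2.symm h3
  · refine ⟨a, ?_⟩
    intro x
    simp only [mem_neighborSet, sup_adj, edge_adj, Set.mem_union, Set.mem_singleton_iff]
    intro h
    rcases h with h | ⟨⟨h, _⟩ | ⟨_, h2⟩, _⟩
    · exact .inl h
    · exact absurd h ha
    · exact .inr h2

theorem encard_sup_edge_le {H : SimpleGraph ℕ} {a b w : ℕ} :
    ((H ⊔ edge a b).neighborSet w).encard ≤ (H.neighborSet w).encard + 1 := by
  obtain ⟨c, hc⟩ := nbr_sup_edge_sub (H := H) (a := a) (b := b) (w := w)
  refine (Set.encard_le_encard hc).trans ((Set.encard_union_le _ _).trans ?_)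
  rw [Set.encard_singleton]

theorem nbr_mono {H H' : SimpleGraph ℕ} (h : H ≤ H') (w : ℕ) :
    (H.neighborSet w).encard ≤ (H'.neighborSet w).encard :=
  Set.encard_le_encard fun _ hx => h hx

/-- Painter prevents a copy of `G` if two adjacent vertices of `G` have degree at least three. -/
theorem painter {V : Type} (G : SimpleGraph V) {u v : V} (huv : G.Adj u v)
    (hu : 3 ≤ (G.neighborSet u).encard) (hv : 3 ≤ (G.neighborSet v).encard) {k : ℕ}
    (hk : k ≤ 4) {R B : SimpleGraph ℕ} (hw : BuilderWins G (MaxDegreeLE k) R B) :
    MaxDegreeLE 4 (R ⊔ B) → Disjoint R B → (∀ w, (R.neighborSet w).encard ≤ 2) →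
      (∀ a b, B.Adj a b → 2 ≤ (R.neighborSet a).encard ∨ 2 ≤ (R.neighborSet b).encard) →
      False := by
  induction hw with
  | won R B h =>
    intro hD hdis hR2 hB
    rcases h with ⟨⟨f⟩⟩ | ⟨⟨f⟩⟩
    · have h1 := (hu.trans (encard_image_le f u)).trans (hR2 (f u))
      exact absurd h1 (by decide)
    · have key : ∀ x : V, 3 ≤ (G.neighborSet x).encard →
          2 ≤ (R.neighborSet (f x)).encard → False := by
        intro x hx h2
        have h3 := hx.trans (encard_image_le f x)
        have h4 : (R ⊔ B).neighborSet (f x) = R.neighborSet (f x) ∪ B.neighborSet (f x) := by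
          ext a
          simp
        have h5 : Disjoint (R.neighborSet (f x)) (B.neighborSet (f x)) := by
          rw [Set.disjoint_left]
          intro a h6 h7
          exact (SimpleGraph.disjoint_left.1 hdis) _ _ h6 h7
        have h8 := hD (f x)
        rw [h4, Set.encard_union_eq h5] at h8
        have h9 : (2 : ℕ∞) + 3 ≤ 4 := (add_le_add h2 h3).trans h8
        exact absurd h9 (by decide)
      rcases hB _ _ (f.toHom.map_adj huv) with h | h
      · exact key u hu h
      · exact key v hv h
  | move R B a b hab hn hF _ _ ihR ihB =>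
    intro hD hdis hR2 hB
    have hF4 : MaxDegreeLE 4 (R ⊔ B ⊔ edge a b) := fun w =>
      (hF w).trans (by exact_mod_cast hk)
    have hn' : ¬ R.Adj a b ∧ ¬ B.Adj a b := by
      rw [sup_adj] at hn
      tauto
    by_cases hc : (R.neighborSet a).encard < 2 ∧ (R.neighborSet b).encard < 2
    · refine ihR ?_ ?_ ?_ ?_
      · rw [sup_right_comm]
        exact hF4
      · rw [SimpleGraph.disjoint_left] at hdis ⊢
        intro x y hx hy
        rw [sup_adj, edge_adj] at hx
        rcases hx with hx | ⟨⟨rfl, rfl⟩ | ⟨rfl, rfl⟩, _⟩
        · exact hdis x y hx hy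
        · exact hn'.2 hy
        · exact hn'.2 hy.symm
      · intro w
        by_cases h1 : w = a
        · subst h1
          exact (encard_sup_edge_le).trans (by
            have := Order.add_one_le_of_lt hc.1
            exact this)
        · by_cases h2 : w = b
          · subst h2
            exact (encard_sup_edge_le).trans (by
              have := Order.add_one_le_of_lt hc.2
              exact this)
          · rw [nbr_sup_edge h1 h2]
            exact hR2 w
      · intro x y hxy
        rcases hB x y hxy with h | h
        · exact .inl (h.trans (nbr_mono le_sup_left _))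
        · exact .inr (h.trans (nbr_mono le_sup_left _))
    · refine ihB ?_ ?_ hR2 ?_
      · rw [← sup_assoc]
        exact hF4
      · rw [SimpleGraph.disjoint_left] at hdis ⊢
        intro x y hx hy
        rw [sup_adj, edge_adj] at hy
        rcases hy with hy | ⟨⟨rfl, rfl⟩ | ⟨rfl, rfl⟩, _⟩
        · exact hdis x y hx hy
        · exact hn'.1 hx
        · exact hn'.1 hx.symm
      · intro x y hxy
        rw [sup_adj, edge_adj] at hxy
        have hc' : 2 ≤ (R.neighborSet a).encard ∨ 2 ≤ (R.neighborSet b).encard := by
          by_contra hcon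
          push Not at hcon
          exact hc hcon
        rcases hxy with hxy | ⟨⟨rfl, rfl⟩ | ⟨rfl, rfl⟩, _⟩
        · exact hB x y hxy
        · exact hc'
        · exact hc'.symm

end Pool.Agent.ODR61
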