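import Pool.Agent.ODR61.Data
import Pool.Agent.ODR61.Painter

/-!
# The graphs on four vertices with online degree-Ramsey number at most four
-/

set_option autoImplicit false

namespace Pool.Agent.ODR61

open SimpleGraph

/-- The paw. -/
def paw : SimpleGraph (Fin 4) := SimpleGraph.fromRel fun i j => (i.val, j.val) ∈ pawE

/-- The cycle of length four. -/
def cyc : SimpleGraph (Fin 4) := SimpleGraph.fromRel fun i j => (i.val, j.val) ∈ cycE

instance : DecidableRel paw.Adj := by
  unfold paw
  intro i j
  rw [SimpleGraph.fromRel_adj]
  infer_instance

instance : DecidableRel cyc.Adj := by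
  unfold cyc
  intro i j
  rw [SimpleGraph.fromRel_adj]
  infer_instance

theorem maxDegreeLE_bot (k : ℕ) : MaxDegreeLE k (⊥ ⊔ ⊥) := by
  intro v
  have : (⊥ ⊔ ⊥ : SimpleGraph ℕ).neighborSet v = ∅ := by
    ext a
    simp
  rw [this]
  simp

theorem paw_wins : BuilderWins paw (MaxDegreeLE 4) ⊥ ⊥ := by
  have h := check_sound pawE paw (fun i j hij => by
    unfold paw at hij
    rw [SimpleGraph.fromRel_adj] at hij
    exact hij.2) pawS [] [] (fun w => by simp [degc]) pawS_ok
  rwa [gr_nil] at h

theorem cyc_wins : BuilderWins cyc (MaxDegreeLE 4) ⊥ ⊥ := by
  have h := check_sound cycE cyc (fun i j hij => by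
    unfold cyc at hij
    rw [SimpleGraph.fromRel_adj] at hij
    exact hij.2) cycS [] [] (fun w => by simp [degc]) cycS_ok
  rwa [gr_nil] at h

theorem cont (G H : SimpleGraph (Fin 4)) (σ : Fin 4 → Fin 4) (hσ : Function.Injective σ)
    (h01 : G.Adj 0 1 → H.Adj (σ 0) (σ 1)) (h02 : G.Adj 0 2 → H.Adj (σ 0) (σ 2))
    (h03 : G.Adj 0 3 → H.Adj (σ 0) (σ 3)) (h12 : G.Adj 1 2 → H.Adj (σ 1) (σ 2))
    (h13 : G.Adj 1 3 → H.Adj (σ 1) (σ 3)) (h23 : G.Adj 2 3 → H.Adj (σ 2) (σ 3)) :
    G.IsContained H := by
  refine ⟨⟨⟨σ, ?_⟩, hσ⟩⟩
  intro i j hij
  fin_cases i <;> fin_cases j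
  all_goals first
    | exact absurd hij (G.loopless.irrefl _)
    | exact h01 hij | exact h02 hij | exact h03 hij | exact h12 hij | exact h13 hij
    | exact h23 hij | exact (h01 hij.symm).symm | exact (h02 hij.symm).symm
    | exact (h03 hij.symm).symm | exact (h12 hij.symm).symm | exact (h13 hij.symm).symm
    | exact (h23 hij.symm).symm

theorem deg3 (G : SimpleGraph (Fin 4)) (c x y z : Fin 4) (hxy : x ≠ y) (hxz : x ≠ z)
    (hyz : y ≠ z) (hx : G.Adj c x) (hy : G.Adj c y) (hz : G.Adj c z) :
    3 ≤ (G.neighborSet c).encard := by
  have h1 : ({x, y, z} : Set (Fin 4)).encard = 3 := by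
    rw [Set.encard_insert_of_notMem (by simp [hxy, hxz]), Set.encard_pair hyz]
    rfl
  rw [← h1]
  apply Set.encard_le_encard
  intro w hw
  simp only [Set.mem_insert_iff, Set.mem_singleton_iff] at hw
  rcases hw with rfl | rfl | rfl
  · exact hx
  · exact hy
  · exact hz

theorem classify (G : SimpleGraph (Fin 4))
    (hno : ¬ ∃ u v, G.Adj u v ∧ 3 ≤ (G.neighborSet u).encard ∧ 3 ≤ (G.neighborSet v).encard) :
    G.IsContained paw ∨ G.IsContained cyc := by
  by_cases h01 : G.Adj 0 1
  · by_cases h02 : G.Adj 0 2
    · by_cases h03 : G.Adj 0 3
      · by_cases h12 : G.Adj 1 2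
        · by_cases h13 : G.Adj 1 3
          · by_cases h23 : G.Adj 2 3
            · exact absurd ⟨2, 3, h23,
                deg3 G 2 0 1 3 (by decide) (by decide) (by decide) h02.symm h12.symm h23,
                deg3 G 3 0 1 2 (by decide) (by decide) (by decide) h03.symm h13.symm h23.symm⟩ hno
            · exact absurd ⟨0, 1, h01,
                deg3 G 0 1 2 3 (by decide) (by decide) (by decide) h01 h02 h03,
                deg3 G 1 0 2 3 (by decide) (by decide) (by decide) h01.symm h12 h13⟩ hno
          · by_cases h23 : G.Adj 2 3
            · exact absurd ⟨0, 2, h02,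
                deg3 G 0 1 2 3 (by decide) (by decide) (by decide) h01 h02 h03,
                deg3 G 2 0 1 3 (by decide) (by decide) (by decide) h02.symm h12.symm h23⟩ hno
            · exact .inl (cont G _ ![2, 0, 1, 3] (by decide)
                (fun _ => by decide) (fun _ => by decide) (fun _ => by decide)
                (fun _ => by decide) (fun h => absurd h h13) (fun h => absurd h h23))
        · by_cases h13 : G.Adj 1 3
          · by_cases h23 : G.Adj 2 3
            · exact absurd ⟨0, 3, h03,
                deg3 G 0 1 2 3 (by decide) (by decide) (by decide) h01 h02 h03,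
                deg3 G 3 0 1 2 (by decide) (by decide) (by decide) h03.symm h13.symm h23.symm⟩ hno
            · exact .inl (cont G _ ![2, 0, 3, 1] (by decide)
                (fun _ => by decide) (fun _ => by decide) (fun _ => by decide)
                (fun h => absurd h h12) (fun _ => by decide) (fun h => absurd h h23))
          · exact .inl (cont G _ ![2, 3, 0, 1] (by decide)
              (fun _ => by decide) (fun _ => by decide) (fun _ => by decide)
              (fun h => absurd h h12) (fun h => absurd h h13) (fun _ => by decide))
      · by_cases h12 : G.Adj 1 2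
        · by_cases h13 : G.Adj 1 3
          · by_cases h23 : G.Adj 2 3
            · exact absurd ⟨1, 2, h12,
                deg3 G 1 0 2 3 (by decide) (by decide) (by decide) h01.symm h12 h13,
                deg3 G 2 0 1 3 (by decide) (by decide) (by decide) h02.symm h12.symm h23⟩ hno
            · exact .inl (cont G _ ![0, 2, 1, 3] (by decide)
                (fun _ => by decide) (fun _ => by decide) (fun h => absurd h h03)
                (fun _ => by decide) (fun _ => by decide) (fun h => absurd h h23))
          · exact .inl (cont G _ ![0, 1, 2, 3] (by decide)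
              (fun _ => by decide) (fun _ => by decide) (fun h => absurd h h03)
              (fun _ => by decide) (fun h => absurd h h13) (fun _ => by decide))
        · exact .inr (cont G _ ![0, 1, 3, 2] (by decide)
            (fun _ => by decide) (fun _ => by decide) (fun h => absurd h h03)
            (fun h => absurd h h12) (fun _ => by decide) (fun _ => by decide))
    · by_cases h03 : G.Adj 0 3
      · by_cases h12 : G.Adj 1 2
        · by_cases h13 : G.Adj 1 3
          · by_cases h23 : G.Adj 2 3
            · exact absurd ⟨1, 3, h13,
                deg3 G 1 0 2 3 (by decide) (by decide) (by decide) h01.symm h12 h13,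
                deg3 G 3 0 1 2 (by decide) (by decide) (by decide) h03.symm h13.symm h23.symm⟩ hno
            · exact .inl (cont G _ ![0, 2, 3, 1] (by decide)
                (fun _ => by decide) (fun h => absurd h h02) (fun _ => by decide)
                (fun _ => by decide) (fun _ => by decide) (fun h => absurd h h23))
          · exact .inr (cont G _ ![0, 1, 2, 3] (by decide)
              (fun _ => by decide) (fun h => absurd h h02) (fun _ => by decide)
              (fun _ => by decide) (fun h => absurd h h13) (fun _ => by decide))
        · exact .inl (cont G _ ![0, 1, 3, 2] (by decide)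
            (fun _ => by decide) (fun h => absurd h h02) (fun _ => by decide)
            (fun h => absurd h h12) (fun _ => by decide) (fun _ => by decide))
      · exact .inl (cont G _ ![3, 2, 0, 1] (by decide)
          (fun _ => by decide) (fun h => absurd h h02) (fun h => absurd h h03)
          (fun _ => by decide) (fun _ => by decide) (fun _ => by decide))
  · by_cases h02 : G.Adj 0 2
    · by_cases h03 : G.Adj 0 3
      · by_cases h12 : G.Adj 1 2
        · by_cases h13 : G.Adj 1 3
          · by_cases h23 : G.Adj 2 3
            · exact absurd ⟨2, 3, h23,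
                deg3 G 2 0 1 3 (by decide) (by decide) (by decide) h02.symm h12.symm h23,
                deg3 G 3 0 1 2 (by decide) (by decide) (by decide) h03.symm h13.symm h23.symm⟩ hno
            · exact .inr (cont G _ ![0, 2, 1, 3] (by decide)
                (fun h => absurd h h01) (fun _ => by decide) (fun _ => by decide)
                (fun _ => by decide) (fun _ => by decide) (fun h => absurd h h23))
          · exact .inl (cont G _ ![0, 3, 2, 1] (by decide)
              (fun h => absurd h h01) (fun _ => by decide) (fun _ => by decide)
              (fun _ => by decide) (fun h => absurd h h13) (fun _ => by decide))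
        · exact .inl (cont G _ ![0, 3, 1, 2] (by decide)
            (fun h => absurd h h01) (fun _ => by decide) (fun _ => by decide)
            (fun h => absurd h h12) (fun _ => by decide) (fun _ => by decide))
      · exact .inl (cont G _ ![3, 0, 2, 1] (by decide)
          (fun h => absurd h h01) (fun _ => by decide) (fun h => absurd h h03)
          (fun _ => by decide) (fun _ => by decide) (fun _ => by decide))
    · exact .inl (cont G _ ![3, 0, 1, 2] (by decide)
        (fun h => absurd h h01) (fun h => absurd h h02) (fun _ => by decide)
        (fun _ => by decide) (fun _ => by decide) (fun _ => by decide))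

/-- For every graph `G` on four vertices (isolated vertices allowed): Builder can force a
monochromatic copy of `G` in graphs of maximum degree at most `k`, for some `k ≤ 4`, if and only
if no two adjacent vertices of `G` have degree three. -/
theorem main (G : SimpleGraph (Fin 4)) :
    (∃ k ≤ 4, BuilderWins G (MaxDegreeLE k) ⊥ ⊥) ↔
      ¬ ∃ u v, G.Adj u v ∧ 3 ≤ (G.neighborSet u).encard ∧ 3 ≤ (G.neighborSet v).encard := by
  constructor
  · rintro ⟨k, hk, hw⟩ ⟨u, v, huv, hu, hv⟩
    refine painter G huv hu hv hk hw (maxDegreeLE_bot 4) disjoint_bot_left ?_ ?_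
    · intro w
      have : (⊥ : SimpleGraph ℕ).neighborSet w = ∅ := by
        ext a
        simp
      rw [this]
      simp
    · intro a b hab
      exact absurd hab (by simp)
  · intro hno
    refine ⟨4, le_rfl, ?_⟩
    rcases classify G hno with h | h
    · exact paw_wins.mono h
    · exact cyc_wins.mono h

end Pool.Agent.ODR61
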